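import Pool.Agent.K.MP_73700b_an.C0

namespace Pool.Agent.Results.MP_73700b_an.CoveringYes

universe u

/-- For every infinite set `Γ` there is an infinite-dimensional reflexive real Banach space `X`,
linearly homeomorphic to `ℓ₂(Γ)`, with a point-finite covering by closed balls of positive
radius. -/
theorem result (Γ : Type u) [Infinite Γ] :
    ∃ (X : Type u) (_ : NormedAddCommGroup X) (_ : NormedSpace ℝ X),
      CompleteSpace X ∧ ¬ FiniteDimensional ℝ X ∧
      Function.Surjective (NormedSpace.inclusionInDoubleDual ℝ X) ∧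
      Nonempty (X ≃L[ℝ] lp (fun _ : Γ => ℝ) 2) ∧
      ∃ 𝓑 : Set (Set X),
        (∀ B ∈ 𝓑, ∃ (x : X) (r : ℝ), 0 < r ∧ B = Metric.closedBall x r) ∧
        ⋃₀ 𝓑 = Set.univ ∧ ∀ y : X, {B ∈ 𝓑 | y ∈ B}.Finite :=
  Pool.Agent.P.MP_73700b_an.Cover.main Γ

end Pool.Agent.Results.MP_73700b_an.CoveringYes
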