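import Pool.Agent.K.MP_73700b_an.C1

namespace Pool.Agent.Results.MP_73700b_an.RegularNo

/-- In an infinite-dimensional reflexive real Banach space, a covering by the cells of a family of
continuous affine functions (a regular tiling), each cell squeezed between two concentric closed
balls with a fixed ratio of radii, has a point that lies in infinitely many cells. -/
theorem result (X : Type*) [NormedAddCommGroup X] [NormedSpace ℝ X] [CompleteSpace X]
    (hinf : ¬ FiniteDimensional ℝ X)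
    (hrefl : Function.Surjective (NormedSpace.inclusionInDoubleDual ℝ X))
    (𝓣 : Set (Set X)) (l : 𝓣 → X →ᴬ[ℝ] ℝ) (C : ℝ) (hcov : ⋃₀ 𝓣 = Set.univ)
    (hreg : ∀ T : 𝓣, (T : Set X) = {x | ∀ T' : 𝓣, l T' x ≤ l T x})
    (hfat : ∀ T ∈ 𝓣, ∃ (a : X) (s : ℝ), 0 < s ∧ Metric.closedBall a s ⊆ T ∧
      T ⊆ Metric.closedBall a (C * s)) :
    ∃ x : X, {T ∈ 𝓣 | x ∈ T}.Infinite :=
  Pool.Agent.P.MP_73700b_an.Reg.main X hinf hrefl 𝓣 l C hcov hreg hfat

end Pool.Agent.Results.MP_73700b_an.RegularNo
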